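import Mathlib

/-! Kernel bounds for the Riesz logarithmic means of Walsh-Fourier series along `2^n`. -/

open MeasureTheory Finset

noncomputable section

namespace Pool.Agent.Q168.RL

/-- `∏_{k ∈ V} (-1)^{i_k}` -/
def chi (i : ℕ) (V : Finset ℕ) : ℝ := ∏ k ∈ V, if i.testBit k then -1 else 1

/-- Dirichlet kernel at the point with ones at the places in `V` -/
def Dk (k : ℕ) (V : Finset ℕ) : ℝ := ∑ i ∈ range k, chi i V

/-- `(-1)^{[j ∈ V]}` -/
def eps (V : Finset ℕ) (j : ℕ) : ℝ := if j ∈ V then -1 else 1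

lemma abs_chi (i : ℕ) (V : Finset ℕ) : |chi i V| = 1 := by
  unfold chi
  rw [Finset.abs_prod]
  apply Finset.prod_eq_one
  intro k _
  split_ifs <;> simp

lemma abs_eps (V : Finset ℕ) (j : ℕ) : |eps V j| = 1 := by
  unfold eps
  split_ifs <;> simp

lemma chi_add (j l : ℕ) (hl : l < 2 ^ j) (V : Finset ℕ) :
    chi (2 ^ j + l) V = eps V j * chi l V := by
  unfold chi eps
  have hne : ∀ k, k ≠ j → (2 ^ j + l).testBit k = l.testBit k := by
    intro k hk
    rcases lt_or_gt_of_ne hk with h | h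
    · exact Nat.testBit_two_pow_add_gt h l
    · rw [Nat.testBit_lt_two_pow (x := l)
        (lt_of_lt_of_le hl (Nat.pow_le_pow_right (by norm_num) h.le)),
        Nat.testBit_lt_two_pow]
      calc 2 ^ j + l < 2 ^ (j + 1) := by rw [pow_succ]; omega
        _ ≤ 2 ^ k := Nat.pow_le_pow_right (by norm_num) h
  split_ifs with h
  · rw [← Finset.mul_prod_erase V _ h, ← Finset.mul_prod_erase V (fun k =>
      if l.testBit k then (-1 : ℝ) else 1) h]
    have h1 : (2 ^ j + l).testBit j = true := by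
      rw [Nat.testBit_two_pow_add_eq, Nat.testBit_lt_two_pow hl]; rfl
    have h2 : l.testBit j = false := Nat.testBit_lt_two_pow hl
    rw [h1, h2]
    have h3 : ∏ k ∈ V.erase j, (if (2 ^ j + l).testBit k then (-1 : ℝ) else 1) =
        ∏ k ∈ V.erase j, (if l.testBit k then (-1 : ℝ) else 1) := by
      apply Finset.prod_congr rfl
      intro k hk
      rw [hne k (Finset.ne_of_mem_erase hk)]
    rw [h3]
    simp
  · rw [one_mul]
    apply Finset.prod_congr rfl
    intro k hk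
    rw [hne k (fun e => h (e ▸ hk))]

/-- the generating function of the characters -/
lemma gen (q : ℝ) (V : Finset ℕ) (j : ℕ) :
    ∑ l ∈ range (2 ^ j), q ^ l * chi l V = ∏ i ∈ range j, (1 + eps V i * q ^ (2 ^ i)) := by
  induction j with
  | zero => simp [chi]
  | succ j ih =>
    rw [pow_succ, mul_two, Finset.sum_range_add, Finset.prod_range_succ, ← ih, mul_add, mul_one]
    congr 1
    rw [Finset.sum_mul]
    apply Finset.sum_congr rfl
    intro l hl
    rw [Finset.mem_range] at hl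
    rw [chi_add j l hl, pow_add]
    ring

lemma Dk_pow_eq_zero (V : Finset ℕ) (j s : ℕ) (hs : s ∈ V) (hj : s < j) : Dk (2 ^ j) V = 0 := by
  have h := gen 1 V j
  simp only [one_pow, one_mul, mul_one] at h
  unfold Dk
  rw [h]
  apply Finset.prod_eq_zero (Finset.mem_range.2 hj)
  unfold eps
  rw [if_pos hs]
  norm_num

lemma sum_qD (q : ℝ) (V : Finset ℕ) (M : ℕ) :
    (1 - q) * ∑ r ∈ range M, q ^ r * Dk r V =
      q * ∑ l ∈ range M, q ^ l * chi l V - q ^ M * Dk M V := by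
  induction M with
  | zero => simp [Dk]
  | succ M ih =>
    rw [Finset.sum_range_succ, mul_add, ih, Finset.sum_range_succ]
    have : Dk (M + 1) V = Dk M V + chi M V := by
      unfold Dk; rw [Finset.sum_range_succ]
    rw [this]
    ring

lemma geom_prod (q : ℝ) (j : ℕ) :
    (1 - q) * ∏ i ∈ range j, (1 + q ^ (2 ^ i)) = 1 - q ^ (2 ^ j) := by
  induction j with
  | zero => simp
  | succ j ih =>
    rw [Finset.prod_range_succ, ← mul_assoc, ih, pow_succ, pow_mul]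
    ring

lemma one_sub_pow_le (q : ℝ) (h0 : 0 ≤ q) (h1 : q ≤ 1) (M : ℕ) : 1 - q ^ M ≤ M * (1 - q) := by
  have h := mul_neg_geom_sum q M
  rw [← h, mul_comm]
  apply mul_le_mul_of_nonneg_right _ (by linarith)
  calc ∑ i ∈ range M, q ^ i ≤ ∑ i ∈ range M, (1 : ℝ) :=
        Finset.sum_le_sum fun i _ => pow_le_one₀ h0 h1
    _ = M := by simp

/-- the bound of the generating function of the Dirichlet kernels -/
lemma sum_qD_le (q : ℝ) (h0 : 0 < q) (h1 : q < 1) (V : Finset ℕ) (j s : ℕ) (hs : s ∈ V)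
    (hj : s < j) :
    |∑ r ∈ range (2 ^ j), q ^ r * Dk r V| ≤
      2 ^ j * 2 ^ s * ∏ i ∈ (V.filter (· < j)).erase s, (1 - q ^ (2 ^ i)) := by
  have e1 := sum_qD q V (2 ^ j)
  rw [Dk_pow_eq_zero V j s hs hj, mul_zero, sub_zero, gen] at e1
  have hq1 : 0 < 1 - q := by linarith
  have hpow : ∀ i : ℕ, 0 ≤ 1 - q ^ (2 ^ i) := fun i => by
    have := pow_le_one₀ (n := 2 ^ i) h0.le h1.le
    linarith
  have hP0 : 0 ≤ ∏ i ∈ range j, (1 + eps V i * q ^ (2 ^ i)) := by
    apply Finset.prod_nonneg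
    intro i _
    unfold eps
    split_ifs
    · have := hpow i; linarith
    · positivity
  have hsV : s ∈ V.filter (· < j) := Finset.mem_filter.2 ⟨hs, hj⟩
  have hP1 : ∏ i ∈ range j, (1 + eps V i * q ^ (2 ^ i)) ≤
      (∏ i ∈ range j, (1 + q ^ (2 ^ i))) * ∏ i ∈ V.filter (· < j), (1 - q ^ (2 ^ i)) := by
    have e2 : ∏ i ∈ V.filter (· < j), (1 - q ^ (2 ^ i)) =
        ∏ i ∈ range j, (if i ∈ V then (1 - q ^ (2 ^ i)) else 1) := by
      rw [← Finset.prod_filter]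
      apply Finset.prod_congr _ fun _ _ => rfl
      ext i
      simp only [Finset.mem_filter, Finset.mem_range]
      tauto
    rw [e2, ← Finset.prod_mul_distrib]
    apply Finset.prod_le_prod
    · intro i _
      unfold eps
      split_ifs
      · have := hpow i; linarith
      · positivity
    · intro i _
      unfold eps
      split_ifs
      · have h2 := hpow i
        have h3 : 0 ≤ q ^ (2 ^ i) := by positivity
        nlinarith [mul_nonneg h3 h2]
      · simp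
  have e3 : (∏ i ∈ range j, (1 + q ^ (2 ^ i))) ≤ 2 ^ j := by
    have h2 := geom_prod q j
    have h3 := one_sub_pow_le q h0.le h1.le (2 ^ j)
    rw [← h2] at h3
    push_cast at h3
    have h4 : (1 - q) * ∏ i ∈ range j, (1 + q ^ (2 ^ i)) ≤ (1 - q) * 2 ^ j := by linarith
    exact le_of_mul_le_mul_left h4 hq1
  have e4 : ∏ i ∈ V.filter (· < j), (1 - q ^ (2 ^ i)) =
      (1 - q ^ (2 ^ s)) * ∏ i ∈ (V.filter (· < j)).erase s, (1 - q ^ (2 ^ i)) := by
    exact (Finset.mul_prod_erase _ (fun i => 1 - q ^ (2 ^ i)) hsV).symm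
  have hQ0 : 0 ≤ ∏ i ∈ (V.filter (· < j)).erase s, (1 - q ^ (2 ^ i)) :=
    Finset.prod_nonneg fun i _ => hpow i
  have e5 := one_sub_pow_le q h0.le h1.le (2 ^ s)
  push_cast at e5
  have key : (1 - q) * |∑ r ∈ range (2 ^ j), q ^ r * Dk r V| ≤ (1 - q) *
      (2 ^ j * 2 ^ s * ∏ i ∈ (V.filter (· < j)).erase s, (1 - q ^ (2 ^ i))) := by
    rw [← abs_of_pos hq1, ← abs_mul, e1, abs_of_pos hq1, abs_of_nonneg (mul_nonneg h0.le hP0)]
    calc q * ∏ i ∈ range j, (1 + eps V i * q ^ (2 ^ i)) ≤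
        1 * ((∏ i ∈ range j, (1 + q ^ (2 ^ i))) * ∏ i ∈ V.filter (· < j), (1 - q ^ (2 ^ i))) :=
          mul_le_mul h1.le hP1 hP0 zero_le_one
      _ ≤ 1 * (2 ^ j * (2 ^ s * (1 - q) *
          ∏ i ∈ (V.filter (· < j)).erase s, (1 - q ^ (2 ^ i)))) := by
          rw [e4]
          apply mul_le_mul_of_nonneg_left _ zero_le_one
          apply mul_le_mul e3 _ (mul_nonneg (hpow s) hQ0) (by positivity)
          exact mul_le_mul_of_nonneg_right e5 hQ0
      _ = _ := by ring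
  exact le_of_mul_le_mul_left key hq1

/-- `4 (3/4)^u` -/
def bb (u : ℕ) : ℝ := 4 * (3 / 4) ^ u

lemma bb_pos (u : ℕ) : 0 < bb u := by unfold bb; positivity

lemma sum_two_thirds (j : ℕ) (W : Finset ℕ) (hW : ∀ i ∈ W, i < j) :
    ∑ i ∈ W, ((2 : ℝ) / 3) ^ (j - i) ≤ 2 := by
  have h1 : ∑ i ∈ W, ((2 : ℝ) / 3) ^ (j - i) ≤ ∑ i ∈ range j, ((2 : ℝ) / 3) ^ (j - i) := by
    apply Finset.sum_le_sum_of_subset_of_nonneg
    · intro i hi
      exact Finset.mem_range.2 (hW i hi)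
    · intro i _ _
      positivity
  have h2 : ∀ n : ℕ, ∑ i ∈ range n, ((2 : ℝ) / 3) ^ (n - i) ≤ 2 := by
    intro n
    induction n with
    | zero => simp
    | succ n ih =>
      rw [Finset.sum_range_succ]
      have h3 : ∑ i ∈ range n, ((2 : ℝ) / 3) ^ (n + 1 - i) =
          (2 / 3) * ∑ i ∈ range n, ((2 : ℝ) / 3) ^ (n - i) := by
        rw [Finset.mul_sum]
        apply Finset.sum_congr rfl
        intro i hi
        rw [Finset.mem_range] at hi
        rw [Nat.sub_add_comm hi.le, pow_succ]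
        ring
      rw [h3]
      have h4 : n + 1 - n = 1 := by omega
      rw [h4, pow_one]
      linarith
  exact h1.trans (h2 j)

lemma prod_bound (q : ℝ) (h0 : 0 < q) (h1 : q < 1) (j : ℕ) (W : Finset ℕ)
    (hW : ∀ i ∈ W, i < j + 1) :
    (∏ i ∈ W, (1 - q ^ (2 ^ i))) * q ^ (2 ^ (j + 1) - 1) ≤
      (∏ i ∈ W, bb (j + 1 - i)) * q ^ (2 ^ j - 1) := by
  set L : ℝ := -(2 ^ (j + 1) * Real.log q) with hL
  have hlog : Real.log q < 0 := Real.log_neg h0 h1
  have hL0 : 0 ≤ L := by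
    rw [hL, ← mul_neg]
    exact mul_nonneg (by positivity) (by linarith)
  have hone : ∀ i ∈ W, 1 - q ^ (2 ^ i) ≤
      bb (j + 1 - i) * Real.exp (L * (2 / 3) ^ (j + 1 - i) / 4) := by
    intro i hi
    have hi1 := hW i hi
    have e1 : q ^ (2 ^ i) = Real.exp (2 ^ i * Real.log q) := by
      rw [mul_comm, ← Real.rpow_def_of_pos h0]; exact_mod_cast (Real.rpow_natCast q (2 ^ i)).symm
    have e2 : 1 - q ^ (2 ^ i) ≤ L * (1 / 2) ^ (j + 1 - i) := by
      rw [e1]
      have h2 := Real.add_one_le_exp (2 ^ i * Real.log q)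
      have h3 : L * (1 / 2) ^ (j + 1 - i) = -(2 ^ i * Real.log q) := by
        have h4 : (2 : ℝ) ^ (j + 1) = 2 ^ i * 2 ^ (j + 1 - i) := by
          rw [← pow_add]
          congr 1
          omega
        rw [hL, h4, one_div, inv_pow]
        have h5 : (2 : ℝ) ^ (j + 1 - i) ≠ 0 := by positivity
        field_simp
      rw [h3]
      linarith
    have e3 : L * (1 / 2) ^ (j + 1 - i) =
        bb (j + 1 - i) * (L * (2 / 3) ^ (j + 1 - i) / 4) := by
      unfold bb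
      have h6 : ((1 : ℝ) / 2) ^ (j + 1 - i) = (3 / 4) ^ (j + 1 - i) * (2 / 3) ^ (j + 1 - i) := by
        rw [← mul_pow]
        norm_num
      rw [h6]
      ring
    rw [e3] at e2
    refine e2.trans ?_
    apply mul_le_mul_of_nonneg_left _ (bb_pos _).le
    have := Real.add_one_le_exp (L * (2 / 3) ^ (j + 1 - i) / 4)
    linarith
  have hprod : ∏ i ∈ W, (1 - q ^ (2 ^ i)) ≤ (∏ i ∈ W, bb (j + 1 - i)) * Real.exp (L / 2) := by
    calc ∏ i ∈ W, (1 - q ^ (2 ^ i)) ≤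
        ∏ i ∈ W, (bb (j + 1 - i) * Real.exp (L * (2 / 3) ^ (j + 1 - i) / 4)) := by
          apply Finset.prod_le_prod _ hone
          intro i _
          have := pow_le_one₀ (n := 2 ^ i) h0.le h1.le
          linarith
      _ = (∏ i ∈ W, bb (j + 1 - i)) *
          Real.exp (∑ i ∈ W, L * (2 / 3) ^ (j + 1 - i) / 4) := by
          rw [Finset.prod_mul_distrib, Real.exp_sum]
      _ ≤ _ := by
          apply mul_le_mul_of_nonneg_left _ (Finset.prod_nonneg fun i _ => (bb_pos _).le)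
          apply Real.exp_le_exp.2
          have h7 := sum_two_thirds (j + 1) W hW
          have h8 : ∑ i ∈ W, L * (2 / 3) ^ (j + 1 - i) / 4 =
              L / 4 * ∑ i ∈ W, ((2 : ℝ) / 3) ^ (j + 1 - i) := by
            rw [Finset.mul_sum]
            apply Finset.sum_congr rfl
            intro i _
            ring
          rw [h8]
          nlinarith
  have hexp : Real.exp (L / 2) * q ^ (2 ^ (j + 1) - 1) = q ^ (2 ^ j - 1) := by
    have h9 : 2 ^ (j + 1) - 1 = 2 ^ j + (2 ^ j - 1) := by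
      have : 1 ≤ 2 ^ j := Nat.one_le_two_pow
      rw [pow_succ]
      omega
    have h10 : q ^ (2 ^ j) = Real.exp (2 ^ j * Real.log q) := by
      rw [mul_comm, ← Real.rpow_def_of_pos h0]; exact_mod_cast (Real.rpow_natCast q (2 ^ j)).symm
    rw [h9, pow_add, h10, ← mul_assoc, ← Real.exp_add]
    have h11 : L / 2 + 2 ^ j * Real.log q = 0 := by
      rw [hL, pow_succ]
      ring
    rw [h11, Real.exp_zero, one_mul]
  calc (∏ i ∈ W, (1 - q ^ (2 ^ i))) * q ^ (2 ^ (j + 1) - 1) ≤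
      (∏ i ∈ W, bb (j + 1 - i)) * Real.exp (L / 2) * q ^ (2 ^ (j + 1) - 1) :=
        mul_le_mul_of_nonneg_right hprod (by positivity)
    _ = _ := by rw [mul_assoc, hexp]

lemma abs_Dk_le (k : ℕ) (V : Finset ℕ) : |Dk k V| ≤ k := by
  unfold Dk
  calc |∑ i ∈ range k, chi i V| ≤ ∑ i ∈ range k, |chi i V| := Finset.abs_sum_le_sum_abs _ _
    _ = k := by simp [abs_chi]

lemma Dk_add (j r : ℕ) (hr : r ≤ 2 ^ j) (V : Finset ℕ) :
    Dk (2 ^ j + r) V = Dk (2 ^ j) V + eps V j * Dk r V := by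
  unfold Dk
  rw [Finset.sum_range_add, Finset.mul_sum]
  congr 1
  apply Finset.sum_congr rfl
  intro l hl
  rw [Finset.mem_range] at hl
  exact chi_add j l (lt_of_lt_of_le hl hr) V

lemma sum_div_eq (j : ℕ) (V : Finset ℕ) :
    ∑ r ∈ range (2 ^ j), Dk r V / ((2 ^ j : ℕ) + r : ℝ) =
      ∫ q in (0 : ℝ)..1, q ^ (2 ^ j - 1) * ∑ r ∈ range (2 ^ j), q ^ r * Dk r V := by
  have h1 : ∀ q : ℝ, q ^ (2 ^ j - 1) * ∑ r ∈ range (2 ^ j), q ^ r * Dk r V =
      ∑ r ∈ range (2 ^ j), Dk r V * q ^ (2 ^ j - 1 + r) := by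
    intro q
    rw [Finset.mul_sum]
    apply Finset.sum_congr rfl
    intro r _
    rw [pow_add]
    ring
  simp_rw [h1]
  rw [intervalIntegral.integral_finsetSum]
  · apply Finset.sum_congr rfl
    intro r _
    rw [intervalIntegral.integral_const_mul, integral_pow]
    have h2 : 1 ≤ 2 ^ j := Nat.one_le_two_pow
    have h3 : ((2 ^ j - 1 + r : ℕ) : ℝ) + 1 = ((2 ^ j : ℕ) : ℝ) + r := by
      rw [Nat.cast_add, Nat.cast_sub h2]
      push_cast
      ring
    rw [h3]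
    simp [div_eq_mul_inv]
  · intro r _
    exact (Continuous.intervalIntegrable (by fun_prop) _ _)

lemma sum_div_le (j s : ℕ) (V : Finset ℕ) (hs : s ∈ V) (hj : s < j + 1) :
    |∑ r ∈ range (2 ^ (j + 1)), Dk r V / ((2 ^ (j + 1) : ℕ) + r : ℝ)| ≤
      2 * 2 ^ s * ∏ i ∈ (V.filter (· < j + 1)).erase s, bb (j + 1 - i) := by
  rw [sum_div_eq]
  set B : ℝ := ∏ i ∈ (V.filter (· < j + 1)).erase s, bb (j + 1 - i) with hB
  have h1 : ‖∫ q in (0 : ℝ)..1, q ^ (2 ^ (j + 1) - 1) *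
      ∑ r ∈ range (2 ^ (j + 1)), q ^ r * Dk r V‖ ≤
      ∫ q in (0 : ℝ)..1, 2 ^ (j + 1) * 2 ^ s * B * q ^ (2 ^ j - 1) := by
    apply intervalIntegral.norm_integral_le_of_norm_le zero_le_one
    · have h2 : ∀ᵐ q : ℝ ∂volume, q ≠ 1 := by
        rw [ae_iff]
        simp
      filter_upwards [h2] with q hq hq1
      have hq0 : 0 < q := hq1.1
      have hq2 : q < 1 := lt_of_le_of_ne hq1.2 hq
      rw [norm_mul, Real.norm_eq_abs, Real.norm_eq_abs, abs_of_pos (pow_pos hq0 _)]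
      have h3 := sum_qD_le q hq0 hq2 V (j + 1) s hs hj
      have h4 := prod_bound q hq0 hq2 j ((V.filter (· < j + 1)).erase s) (by
        intro i hi
        have := Finset.mem_of_mem_erase hi
        exact (Finset.mem_filter.1 this).2)
      calc q ^ (2 ^ (j + 1) - 1) * |∑ r ∈ range (2 ^ (j + 1)), q ^ r * Dk r V| ≤
          q ^ (2 ^ (j + 1) - 1) * (2 ^ (j + 1) * 2 ^ s *
            ∏ i ∈ (V.filter (· < j + 1)).erase s, (1 - q ^ (2 ^ i))) :=
            mul_le_mul_of_nonneg_left h3 (by positivity)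
        _ = 2 ^ (j + 1) * 2 ^ s * ((∏ i ∈ (V.filter (· < j + 1)).erase s, (1 - q ^ (2 ^ i))) *
            q ^ (2 ^ (j + 1) - 1)) := by ring
        _ ≤ 2 ^ (j + 1) * 2 ^ s * (B * q ^ (2 ^ j - 1)) :=
            mul_le_mul_of_nonneg_left h4 (by positivity)
        _ = _ := by ring
    · exact (Continuous.intervalIntegrable (by fun_prop) _ _)
  rw [Real.norm_eq_abs] at h1
  refine h1.trans (le_of_eq ?_)
  rw [intervalIntegral.integral_const_mul, integral_pow]
  have h2 : 1 ≤ 2 ^ j := Nat.one_le_two_pow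
  have h3 : ((2 ^ j - 1 : ℕ) : ℝ) + 1 = 2 ^ j := by
    rw [Nat.cast_sub h2]
    push_cast
    ring
  have h4 : 2 ^ j - 1 + 1 ≠ 0 := by omega
  rw [h3, one_pow, zero_pow h4, pow_succ]
  have h5 : (2 : ℝ) ^ j ≠ 0 := by positivity
  field_simp
  ring

/-- the kernel of the block `2^j ≤ k < 2^(j+1)` -/
def Kj (j : ℕ) (V : Finset ℕ) : ℝ :=
  (2 ^ (j + 1))⁻¹ * ∑ r ∈ range (2 ^ j), Dk (2 ^ j + r) V / ((2 ^ j : ℕ) + r : ℝ)

theorem Kj_le (j : ℕ) (V : Finset ℕ) (hV : V ⊆ range (j + 1)) :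
    |Kj j V| ≤ ∏ i ∈ V, bb (j - i) := by
  unfold Kj
  rw [abs_mul, abs_of_pos (by positivity : (0 : ℝ) < (2 ^ (j + 1))⁻¹)]
  by_cases h : ∃ s ∈ V, s < j
  · obtain ⟨s, hs, hsj⟩ := h
    obtain ⟨j', rfl⟩ : ∃ j', j = j' + 1 := ⟨j - 1, by omega⟩
    have h0 := Dk_pow_eq_zero V (j' + 1) s hs hsj
    have h1 : ∑ r ∈ range (2 ^ (j' + 1)), Dk (2 ^ (j' + 1) + r) V / ((2 ^ (j' + 1) : ℕ) + r : ℝ) =
        eps V (j' + 1) * ∑ r ∈ range (2 ^ (j' + 1)), Dk r V / ((2 ^ (j' + 1) : ℕ) + r : ℝ) := by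
      rw [Finset.mul_sum]
      apply Finset.sum_congr rfl
      intro r hr
      rw [Finset.mem_range] at hr
      rw [Dk_add (j' + 1) r hr.le, h0, zero_add, mul_div_assoc]
    rw [h1, abs_mul, abs_eps, one_mul]
    have h2 := sum_div_le j' s V hs hsj
    set W := (V.filter (· < j' + 1)).erase s with hW
    have h3 : 0 ≤ ∏ i ∈ W, bb (j' + 1 - i) := Finset.prod_nonneg fun i _ => (bb_pos _).le
    have hsV : s ∈ V.filter (· < j' + 1) := Finset.mem_filter.2 ⟨hs, hsj⟩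
    have h4 : bb (j' + 1 - s) * ∏ i ∈ W, bb (j' + 1 - i) ≤ ∏ i ∈ V, bb (j' + 1 - i) := by
      rw [hW, Finset.mul_prod_erase _ (fun i => bb (j' + 1 - i)) hsV,
        ← Finset.prod_filter_mul_prod_filter_not V (· < j' + 1)]
      have h5 : 1 ≤ ∏ i ∈ V with ¬ i < j' + 1, bb (j' + 1 - i) := by
        have h6 : ∀ i ∈ V.filter (fun i => ¬ i < j' + 1), (1 : ℝ) ≤ bb (j' + 1 - i) := by
          intro i hi
          have hi1 := (Finset.mem_filter.1 hi).2
          have h7 : j' + 1 - i = 0 := by omega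
          rw [h7]
          unfold bb
          norm_num
        calc (1 : ℝ) = ∏ i ∈ V with ¬ i < j' + 1, (1 : ℝ) := by simp
          _ ≤ _ := Finset.prod_le_prod (fun _ _ => zero_le_one) h6
      exact le_mul_of_one_le_right (Finset.prod_nonneg fun i _ => (bb_pos _).le) h5
    have h8 : (2 ^ (j' + 1 + 1))⁻¹ * (2 * 2 ^ s) ≤ bb (j' + 1 - s) := by
      have h9 : (2 : ℝ) ^ (j' + 1 + 1) = 2 * (2 ^ s * 2 ^ (j' + 1 - s)) := by
        rw [← pow_add, ← pow_succ']
        congr 1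
        omega
      rw [h9]
      have h10 : (2 * (2 ^ s * 2 ^ (j' + 1 - s)))⁻¹ * (2 * 2 ^ s) =
          ((1 : ℝ) / 2) ^ (j' + 1 - s) := by
        rw [one_div, inv_pow]
        have h11 : (2 : ℝ) ^ s ≠ 0 := by positivity
        have h12 : (2 : ℝ) ^ (j' + 1 - s) ≠ 0 := by positivity
        field_simp
      rw [h10]
      unfold bb
      have h13 : ((1 : ℝ) / 2) ^ (j' + 1 - s) ≤ (3 / 4) ^ (j' + 1 - s) :=
        pow_le_pow_left₀ (by norm_num) (by norm_num) _
      have h14 : (0 : ℝ) ≤ (3 / 4) ^ (j' + 1 - s) := by positivity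
      linarith
    calc (2 ^ (j' + 1 + 1))⁻¹ *
        |∑ r ∈ range (2 ^ (j' + 1)), Dk r V / ((2 ^ (j' + 1) : ℕ) + r : ℝ)| ≤
        (2 ^ (j' + 1 + 1))⁻¹ * (2 * 2 ^ s * ∏ i ∈ W, bb (j' + 1 - i)) :=
          mul_le_mul_of_nonneg_left h2 (by positivity)
      _ = (2 ^ (j' + 1 + 1))⁻¹ * (2 * 2 ^ s) * ∏ i ∈ W, bb (j' + 1 - i) := by ring
      _ ≤ bb (j' + 1 - s) * ∏ i ∈ W, bb (j' + 1 - i) := mul_le_mul_of_nonneg_right h8 h3
      _ ≤ _ := h4
  · have h1 : |∑ r ∈ range (2 ^ j), Dk (2 ^ j + r) V / ((2 ^ j : ℕ) + r : ℝ)| ≤ 2 ^ j := by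
      calc |∑ r ∈ range (2 ^ j), Dk (2 ^ j + r) V / ((2 ^ j : ℕ) + r : ℝ)| ≤
          ∑ r ∈ range (2 ^ j), |Dk (2 ^ j + r) V / ((2 ^ j : ℕ) + r : ℝ)| :=
            Finset.abs_sum_le_sum_abs _ _
        _ ≤ ∑ r ∈ range (2 ^ j), (1 : ℝ) := by
            apply Finset.sum_le_sum
            intro r _
            have h2 := abs_Dk_le (2 ^ j + r) V
            have h3 : (0 : ℝ) < ((2 ^ j : ℕ) : ℝ) + r := by positivity
            rw [abs_div, abs_of_pos h3, div_le_one h3]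
            push_cast at h2 ⊢
            exact h2
        _ = 2 ^ j := by simp
    have h4 : (1 : ℝ) ≤ ∏ i ∈ V, bb (j - i) := by
      have h6 : ∀ i ∈ V, (1 : ℝ) ≤ bb (j - i) := by
        intro i hi
        have h5 : ¬ i < j := fun h5 => h ⟨i, hi, h5⟩
        have h7 : j - i = 0 := by omega
        rw [h7]
        unfold bb
        norm_num
      calc (1 : ℝ) = ∏ i ∈ V, (1 : ℝ) := by simp
        _ ≤ _ := Finset.prod_le_prod (fun _ _ => zero_le_one) h6
    calc (2 ^ (j + 1))⁻¹ * |∑ r ∈ range (2 ^ j), Dk (2 ^ j + r) V / ((2 ^ j : ℕ) + r : ℝ)| ≤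
        (2 ^ (j + 1))⁻¹ * 2 ^ j := mul_le_mul_of_nonneg_left h1 (by positivity)
      _ ≤ 1 := by
          rw [pow_succ]
          have h5 : (2 : ℝ) ^ j ≠ 0 := by positivity
          have : (2 ^ j * 2 : ℝ)⁻¹ * 2 ^ j = 1 / 2 := by field_simp
          rw [this]
          norm_num
      _ ≤ _ := h4

end Pool.Agent.Q168.RL
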