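import Mathlib
import Pool.Agent.Q168.Walsh
import Pool.Agent.Q168.RL.Ker

/-! Complex valued dyadic martingales and the kernel representation of the partial sums of their
Walsh-Fourier series. -/

open MeasureTheory Set Filter Finset
open scoped ENNReal NNReal

noncomputable section

namespace Pool.Agent.Q168.RL

open Pool.Agent.Q168.Walsh (G bit mu r w)

/-- Complex valued martingales with respect to `(F_n)`, `F_n` generated by the cylinders
`I_n(x) = {y : y_j = x_j, j < n}`: `f n` depends only on the coordinates `j < n` and is the average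
of `f (n + 1)` over the two values of the coordinate `n`. -/
structure IsMart (f : ℕ → G → ℂ) : Prop where
  dep : ∀ n x y, (∀ k < n, x k = y k) → f n x = f n y
  avg : ∀ n x, f n x =
    (f (n + 1) (Function.update x n false) + f (n + 1) (Function.update x n true)) / 2

/-- the Fourier coefficients `f^(i) = lim_k ∫ f^{(k)} w_i` -/
def coef (f : ℕ → G → ℂ) (i : ℕ) : ℂ := limUnder atTop fun k => ∫ x, f k x * (w i x : ℂ) ∂mu

/-- partial sums `S_k f = ∑_{i<k} f^(i) w_i` -/
def S (f : ℕ → G → ℂ) (k : ℕ) (x : G) : ℂ := ∑ i ∈ range k, coef f i * (w i x : ℂ)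

/-- the point `x + ∑_{k ∈ V} e_k` -/
def sh (x : G) (V : Finset ℕ) : G := fun k => xor (x k) (decide (k ∈ V))

/-- dependence on the coordinates `< N` only -/
def Dep {E : Type*} (N : ℕ) (g : G → E) : Prop := ∀ x y : G, (∀ k < N, x k = y k) → g x = g y

lemma bit_map (b : Bool) : bit.map (fun c => xor c b) = bit := by
  have hm : Measurable (fun c : Bool => xor c b) := measurable_of_finite _
  have h1 : ∀ a : Bool, Measure.map (fun c => xor c b) (Measure.dirac a) =
      Measure.dirac (xor a b) := fun a => Measure.map_dirac' hm a
  unfold bit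
  rw [Measure.map_smul, Measure.map_add _ _ hm, h1, h1]
  cases b
  · rfl
  · simp only [Bool.false_xor, Bool.true_xor, Bool.not_true]
    rw [add_comm]

lemma mp_sh (V : Finset ℕ) : MeasurePreserving (fun x : G => sh x V) mu mu := by
  constructor
  · apply measurable_pi_lambda
    intro k
    exact (measurable_of_finite (fun c : Bool => xor c (decide (k ∈ V)))).comp
      (measurable_pi_apply k)
  · have h := Measure.infinitePi_map_pi (μ := fun _ : ℕ => bit)
      (f := fun k (c : Bool) => xor c (decide (k ∈ V))) (fun k => measurable_of_finite _)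
    unfold mu
    simp only [bit_map] at h
    exact h

lemma Dep.measurable {E : Type*} [MeasurableSpace E] {N : ℕ} {g : G → E} (h : Dep N g) :
    Measurable g := by
  have h1 : g = (fun z : Fin N → Bool => g (fun k => if hk : k < N then z ⟨k, hk⟩ else false)) ∘
      fun x : G => fun i : Fin N => x i := by
    funext x
    apply h
    intro k hk
    simp [hk]
  rw [h1]
  apply Measurable.comp (measurable_of_finite _)
  exact measurable_pi_lambda _ fun i => measurable_pi_apply _

lemma Dep.finite_range {E : Type*} {N : ℕ} {g : G → E} (h : Dep N g) :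
    (Set.range g).Finite := by
  have h1 : Set.range g ⊆ Set.range (fun z : Fin N → Bool =>
      g (fun k => if hk : k < N then z ⟨k, hk⟩ else false)) := by
    rintro _ ⟨x, rfl⟩
    refine ⟨fun i => x i, ?_⟩
    apply h
    intro k hk
    simp [hk]
  exact (Set.finite_range _).subset h1

lemma Dep.integrable {N : ℕ} {g : G → ℂ} (h : Dep N g) : Integrable g mu := by
  obtain ⟨C, hC⟩ := h.finite_range.isBounded.exists_norm_le
  exact Integrable.of_bound h.measurable.aestronglyMeasurable C
    (Eventually.of_forall fun x => hC _ (Set.mem_range_self x))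

lemma Dep.mono {E : Type*} {M N : ℕ} (hMN : M ≤ N) {g : G → E} (h : Dep M g) : Dep N g :=
  fun x y hxy => h x y fun k hk => hxy k (lt_of_lt_of_le hk hMN)

lemma sh_empty (x : G) : sh x ∅ = x := by
  funext k
  simp [sh]

lemma sh_insert (x : G) (N : ℕ) (V : Finset ℕ) (hN : N ∉ V) :
    sh x (insert N V) = sh (sh x V) {N} := by
  funext k
  simp only [sh, Finset.mem_insert, Finset.mem_singleton]
  by_cases hk : k = N
  · subst hk
    simp [hN]
  · simp [hk]

/-- the integral of a function of the first `N` coordinates -/
lemma int_eq (N : ℕ) : ∀ (g : G → ℂ), Dep N g → ∀ x : G,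
    ∫ y, g y ∂mu = (2 ^ N : ℂ)⁻¹ * ∑ V ∈ (range N).powerset, g (sh x V) := by
  induction N with
  | zero =>
    intro g hg x
    have h1 : g = fun _ => g x := by
      funext y
      exact hg y x (by simp)
    rw [h1]
    simp
  | succ N ih =>
    intro g hg x
    set g' : G → ℂ := fun y => (g y + g (sh y {N})) / 2 with hg'
    have hd : Dep N g' := by
      intro y z hyz
      have hcase : (g y = g z ∧ g (sh y {N}) = g (sh z {N})) ∨
          (g y = g (sh z {N}) ∧ g (sh y {N}) = g z) := by
        by_cases hN : y N = z N
        · left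
          constructor
          · apply hg
            intro k hk
            rcases Nat.lt_succ_iff_lt_or_eq.1 hk with h | h
            · exact hyz k h
            · rw [h]; exact hN
          · apply hg
            intro k hk
            simp only [sh]
            rcases Nat.lt_succ_iff_lt_or_eq.1 hk with h | h
            · rw [hyz k h]
            · rw [h, hN]
        · have hN' : y N = !(z N) := by
            cases h1 : y N <;> cases h2 : z N <;> simp_all
          right
          constructor
          · apply hg
            intro k hk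
            simp only [sh, Finset.mem_singleton]
            rcases Nat.lt_succ_iff_lt_or_eq.1 hk with h | h
            · rw [hyz k h]
              simp [h.ne]
            · rw [h, hN']
              simp
          · apply hg
            intro k hk
            simp only [sh, Finset.mem_singleton]
            rcases Nat.lt_succ_iff_lt_or_eq.1 hk with h | h
            · rw [hyz k h]
              simp [h.ne]
            · rw [h, hN']
              simp
      simp only [hg']
      rcases hcase with ⟨h1, h2⟩ | ⟨h1, h2⟩
      · rw [h1, h2]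
      · rw [h1, h2, add_comm]
    have hint : ∫ y, g y ∂mu = ∫ y, g' y ∂mu := by
      have h1 : ∫ y, g (sh y {N}) ∂mu = ∫ y, g y ∂mu := by
        have := (mp_sh {N})
        have h2 := integral_map (μ := mu) (φ := fun y : G => sh y {N}) this.measurable.aemeasurable
          (f := g) (by rw [this.map_eq]; exact hg.measurable.aestronglyMeasurable)
        rw [this.map_eq] at h2
        exact h2.symm
      have hi : Integrable (fun y => g (sh y {N})) mu :=
        (mp_sh {N}).integrable_comp_of_integrable hg.integrable
      simp only [hg']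
      rw [integral_div, integral_add hg.integrable hi, h1]
      ring
    rw [hint, ih g' hd x, Finset.range_add_one,
      Finset.sum_powerset_insert Finset.notMem_range_self, pow_succ, mul_inv]
    have h3 : ∑ V ∈ (range N).powerset, g' (sh x V) =
        (∑ V ∈ (range N).powerset, g (sh x V) +
          ∑ V ∈ (range N).powerset, g (sh x (insert N V))) / 2 := by
      rw [← Finset.sum_add_distrib, Finset.sum_div]
      apply Finset.sum_congr rfl
      intro V hV
      have hNV : N ∉ V := fun h => by
        have := (Finset.mem_powerset.1 hV) h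
        simp at this
      rw [sh_insert x N V hNV]
    rw [h3]
    ring

lemma w_dep (i N : ℕ) (hi : i < 2 ^ N) : Dep N (w i) := by
  intro x y hxy
  rw [Walsh.w_eq i N hi, Walsh.w_eq i N hi]
  apply Finset.prod_congr rfl
  intro k hk
  rw [Finset.mem_range] at hk
  unfold r
  rw [hxy k hk]

lemma w_sh (i N : ℕ) (hi : i < 2 ^ N) (x : G) (V : Finset ℕ) (hV : V ⊆ range N) :
    w i (sh x V) * w i x = chi i V := by
  rw [Walsh.w_eq i N hi, Walsh.w_eq i N hi, ← Finset.prod_mul_distrib]
  unfold chi
  rw [← Finset.prod_subset hV]
  · apply Finset.prod_congr rfl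
    intro k hk
    by_cases hb : i.testBit k
    · simp only [hb, if_true, r, sh, hk, decide_true, Bool.xor_true]
      cases x k <;> simp
    · simp [hb]
  · intro k _ hk
    by_cases hb : i.testBit k
    · simp only [hb, if_true, r, sh, hk, decide_false, Bool.xor_false]
      cases x k <;> simp
    · simp [hb]

variable {f : ℕ → G → ℂ}

lemma IsMart.dep' (hf : IsMart f) (n : ℕ) : Dep n (f n) := hf.dep n

lemma IsMart.avg_sh (hf : IsMart f) (n : ℕ) (x : G) :
    f n x = (f (n + 1) x + f (n + 1) (sh x {n})) / 2 := by
  rw [hf.avg n x]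
  have e1 : f (n + 1) x = f (n + 1) (Function.update x n (x n)) := by
    rw [Function.update_eq_self]
  have e2 : f (n + 1) (sh x {n}) = f (n + 1) (Function.update x n (!(x n))) := by
    congr 1
    funext k
    by_cases hk : k = n
    · subst hk
      simp [sh]
    · simp [sh, Function.update, hk]
  rw [e1, e2]
  cases x n
  · simp
  · simp only [Bool.not_true]
    rw [add_comm]

lemma coef_step (hf : IsMart f) (i k : ℕ) (hi : i < 2 ^ k) :
    ∫ x, f (k + 1) x * (w i x : ℂ) ∂mu = ∫ x, f k x * (w i x : ℂ) ∂mu := by
  have hdw : Dep k (fun x => (w i x : ℂ)) := fun x y h => by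
    show (w i x : ℂ) = w i y
    rw [w_dep i k hi x y h]
  have hd1 : Dep (k + 1) (fun x => f (k + 1) x * (w i x : ℂ)) := fun x y h => by
    show f (k + 1) x * (w i x : ℂ) = f (k + 1) y * (w i y : ℂ)
    rw [hf.dep (k + 1) x y h, w_dep i k hi x y fun j hj => h j (by omega)]
  have h1 : ∫ y, f (k + 1) (sh y {k}) * (w i (sh y {k}) : ℂ) ∂mu =
      ∫ y, f (k + 1) y * (w i y : ℂ) ∂mu := by
    have := (mp_sh {k})
    have h2 := integral_map (μ := mu) (φ := fun y : G => sh y {k}) this.measurable.aemeasurable
      (f := fun x => f (k + 1) x * (w i x : ℂ))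
      (by rw [this.map_eq]; exact hd1.measurable.aestronglyMeasurable)
    rw [this.map_eq] at h2
    exact h2.symm
  have hi2 : Integrable (fun y => f (k + 1) (sh y {k}) * (w i (sh y {k}) : ℂ)) mu :=
    (mp_sh {k}).integrable_comp_of_integrable (g := fun x => f (k + 1) x * (w i x : ℂ))
      hd1.integrable
  have h3 : ∀ x, f k x * (w i x : ℂ) =
      (f (k + 1) x * (w i x : ℂ) + f (k + 1) (sh x {k}) * (w i (sh x {k}) : ℂ)) / 2 := by
    intro x
    have h4 : w i (sh x {k}) = w i x := by
      apply w_dep i k hi
      intro j hj
      simp [sh, hj.ne]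
    rw [h4, hf.avg_sh k x]
    ring
  simp_rw [h3]
  rw [integral_div, integral_add hd1.integrable hi2, h1]
  ring

lemma coef_eq (hf : IsMart f) (i N : ℕ) (hi : i < 2 ^ N) :
    coef f i = ∫ x, f N x * (w i x : ℂ) ∂mu := by
  unfold coef
  apply Tendsto.limUnder_eq
  apply tendsto_const_nhds.congr'
  filter_upwards [eventually_ge_atTop N] with k hk
  induction k, hk using Nat.le_induction with
  | base => rfl
  | succ k hk ih =>
    rw [coef_step hf i k (lt_of_lt_of_le hi (Nat.pow_le_pow_right (by norm_num) hk)), ← ih]

/-- the kernel representation -/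
theorem S_eq (hf : IsMart f) (N k : ℕ) (hk : k ≤ 2 ^ N) (x : G) :
    S f k x = (2 ^ N : ℂ)⁻¹ * ∑ V ∈ (range N).powerset, (Dk k V : ℂ) * f N (sh x V) := by
  have h1 : ∀ i ∈ range k, coef f i * (w i x : ℂ) =
      (2 ^ N : ℂ)⁻¹ * ∑ V ∈ (range N).powerset, (chi i V : ℂ) * f N (sh x V) := by
    intro i hi
    rw [Finset.mem_range] at hi
    have hiN : i < 2 ^ N := lt_of_lt_of_le hi hk
    have hd : Dep N (fun y => f N y * (w i y : ℂ)) := fun y z h => by
      show f N y * (w i y : ℂ) = f N z * (w i z : ℂ)
      rw [hf.dep N y z h, w_dep i N hiN y z h]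
    rw [coef_eq hf i N hiN, int_eq N _ hd x, mul_assoc, Finset.sum_mul]
    congr 1
    apply Finset.sum_congr rfl
    intro V hV
    rw [Finset.mem_powerset] at hV
    rw [← w_sh i N hiN x V hV]
    push_cast
    ring
  unfold S
  rw [Finset.sum_congr rfl h1, ← Finset.mul_sum, Finset.sum_comm]
  congr 1
  apply Finset.sum_congr rfl
  intro V _
  rw [← Finset.sum_mul]
  unfold Dk
  push_cast
  rfl

end Pool.Agent.Q168.RL
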