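import Mathlib
import Pool.Agent.Q168.RL.Rep

/-! The norm estimate. -/

open MeasureTheory Set Filter Finset
open scoped ENNReal NNReal

noncomputable section

namespace Pool.Agent.Q168.RL

open Pool.Agent.Q168.Walsh (G bit mu r w)

lemma sum_rpow_le {ι : Type*} (s : Finset ι) (F : ι → ℝ≥0∞) (p : ℝ) (h0 : 0 < p) (h1 : p ≤ 1) :
    (∑ i ∈ s, F i) ^ p ≤ ∑ i ∈ s, F i ^ p := by
  classical
  induction s using Finset.induction_on with
  | empty => simp [ENNReal.zero_rpow_of_pos h0]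
  | insert a s ha ih =>
    rw [Finset.sum_insert ha, Finset.sum_insert ha]
    calc (F a + ∑ i ∈ s, F i) ^ p ≤ F a ^ p + (∑ i ∈ s, F i) ^ p :=
          ENNReal.rpow_add_le_add_rpow _ _ h0.le h1
      _ ≤ _ := add_le_add le_rfl ih

/-- `1/(1 - 2^(-p))` -/
def cp (p : ℝ) : ℝ := (1 - 2 ^ (-p))⁻¹

lemma two_neg_lt (p : ℝ) (h0 : 0 < p) : (2 : ℝ) ^ (-p) < 1 :=
  Real.rpow_lt_one_of_one_lt_of_neg (by norm_num) (by linarith)

lemma cp_pos (p : ℝ) (h0 : 0 < p) : 0 < cp p := by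
  unfold cp
  have := two_neg_lt p h0
  apply inv_pos.2
  linarith

lemma cp_eq (p : ℝ) (h0 : 0 < p) : 1 + cp p * 2 ^ (-p) = cp p := by
  unfold cp
  have := two_neg_lt p h0
  have h : (1 - (2 : ℝ) ^ (-p)) ≠ 0 := by linarith
  field_simp
  ring

lemma bad_step (p : ℝ) (h0 : 0 < p) (a b : ℝ≥0∞) (hab : a ≤ b) :
    (if 2 * a < b then b ^ p else 0) + ENNReal.ofReal (cp p) * a ^ p ≤
      ENNReal.ofReal (cp p) * b ^ p := by
  split_ifs with h
  · have h1 : a ^ p ≤ ENNReal.ofReal (2 ^ (-p)) * b ^ p := by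
      have h2 : (2 * a) ^ p ≤ b ^ p := ENNReal.rpow_le_rpow h.le h0.le
      rw [ENNReal.mul_rpow_of_nonneg _ _ h0.le] at h2
      have h3 : ENNReal.ofReal ((2 : ℝ) ^ (-p)) * (2 : ℝ≥0∞) ^ p = 1 := by
        have h4 : (2 : ℝ≥0∞) ^ p = ENNReal.ofReal ((2 : ℝ) ^ p) := by
          rw [← ENNReal.ofReal_rpow_of_pos (by norm_num : (0 : ℝ) < 2)]
          norm_num
        rw [h4, ← ENNReal.ofReal_mul (by positivity), ← Real.rpow_add (by norm_num)]
        simp
      calc a ^ p = ENNReal.ofReal ((2 : ℝ) ^ (-p)) * (2 : ℝ≥0∞) ^ p * a ^ p := by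
            rw [h3, one_mul]
        _ = ENNReal.ofReal ((2 : ℝ) ^ (-p)) * ((2 : ℝ≥0∞) ^ p * a ^ p) := by rw [mul_assoc]
        _ ≤ _ := mul_le_mul_right h2 _
    calc b ^ p + ENNReal.ofReal (cp p) * a ^ p ≤
        b ^ p + ENNReal.ofReal (cp p) * (ENNReal.ofReal (2 ^ (-p)) * b ^ p) :=
          add_le_add le_rfl (mul_le_mul_right h1 _)
      _ = ENNReal.ofReal (1 + cp p * 2 ^ (-p)) * b ^ p := by
          rw [ENNReal.ofReal_add zero_le_one (mul_nonneg (cp_pos p h0).le (by positivity)),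
            ENNReal.ofReal_mul (cp_pos p h0).le, ENNReal.ofReal_one]
          ring
      _ = _ := by rw [cp_eq p h0]
  · rw [zero_add]
    exact mul_le_mul_right (ENNReal.rpow_le_rpow hab h0.le) _

/-- the geometric growth lemma with lag `u + 1` -/
lemma seq_bound (p : ℝ) (h0 : 0 < p) (a : ℕ → ℝ≥0∞) (ha : Monotone a) (u N : ℕ) :
    ∑ i ∈ range N, (if 2 * a i < a (i + (u + 1)) then a (i + (u + 1)) ^ p else 0) ≤
      ENNReal.ofReal (cp p) * ∑ t ∈ range (u + 1), a (N + t) ^ p := by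
  induction N with
  | zero => simp
  | succ N ih =>
    rw [Finset.sum_range_succ]
    rw [Finset.sum_range_succ'] at ih
    rw [Finset.sum_range_succ (fun t => a (N + 1 + t) ^ p)]
    have h1 := bad_step p h0 (a N) (a (N + (u + 1))) (ha (by omega))
    have h2 : ∑ t ∈ range u, a (N + (t + 1)) ^ p = ∑ t ∈ range u, a (N + 1 + t) ^ p := by
      apply Finset.sum_congr rfl
      intro t _
      have : N + (t + 1) = N + 1 + t := by ring
      rw [this]
    rw [h2, add_zero] at ih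
    have h3 : N + 1 + u = N + (u + 1) := by ring
    rw [h3]
    calc ∑ i ∈ range N, (if 2 * a i < a (i + (u + 1)) then a (i + (u + 1)) ^ p else 0) +
          (if 2 * a N < a (N + (u + 1)) then a (N + (u + 1)) ^ p else 0) ≤
        ENNReal.ofReal (cp p) * (∑ t ∈ range u, a (N + 1 + t) ^ p + a N ^ p) +
          (if 2 * a N < a (N + (u + 1)) then a (N + (u + 1)) ^ p else 0) :=
          add_le_add ih le_rfl
      _ = ENNReal.ofReal (cp p) * ∑ t ∈ range u, a (N + 1 + t) ^ p +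
          ((if 2 * a N < a (N + (u + 1)) then a (N + (u + 1)) ^ p else 0) +
            ENNReal.ofReal (cp p) * a N ^ p) := by ring
      _ ≤ ENNReal.ofReal (cp p) * ∑ t ∈ range u, a (N + 1 + t) ^ p +
          ENNReal.ofReal (cp p) * a (N + (u + 1)) ^ p := add_le_add le_rfl h1
      _ = _ := by ring

lemma seq_bound' (p : ℝ) (h0 : 0 < p) (a : ℕ → ℝ≥0∞) (ha : Monotone a) (u n : ℕ) (hu : u < n) :
    ∑ i ∈ range (n - u), (if 2 * a i < a (i + (u + 1)) then a (i + (u + 1)) ^ p else 0) ≤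
      ENNReal.ofReal (cp p) * (u + 1) * a n ^ p := by
  refine (seq_bound p h0 a ha u (n - u)).trans ?_
  rw [mul_assoc]
  apply mul_le_mul_right
  calc ∑ t ∈ range (u + 1), a (n - u + t) ^ p ≤ ∑ t ∈ range (u + 1), a n ^ p := by
        apply Finset.sum_le_sum
        intro t ht
        rw [Finset.mem_range] at ht
        exact ENNReal.rpow_le_rpow (ha (by omega)) h0.le
    _ = _ := by
        rw [Finset.sum_const, Finset.card_range, nsmul_eq_mul]
        push_cast
        rfl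

/-! ### sums of the weights -/

/-- `∏_{i ∈ V} bb (j - i)` -/
def BV (j : ℕ) (V : Finset ℕ) : ℝ := ∏ i ∈ V, bb (j - i)

lemma BV_nonneg (j : ℕ) (V : Finset ℕ) : 0 ≤ BV j V := Finset.prod_nonneg fun _ _ => (bb_pos _).le

/-- the constant `exp (4^p / (1 - (3/4)^p))` -/
def Ep (p : ℝ) : ℝ := Real.exp (4 ^ p / (1 - (3 / 4) ^ p))

lemma Ep_pos (p : ℝ) : 0 < Ep p := Real.exp_pos _

lemma rho_lt (p : ℝ) (h0 : 0 < p) : ((3 : ℝ) / 4) ^ p < 1 :=
  Real.rpow_lt_one (by norm_num) (by norm_num) h0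

lemma bb_rpow (p : ℝ) (u : ℕ) : bb u ^ p = 4 ^ p * ((3 / 4) ^ p) ^ u := by
  unfold bb
  rw [Real.mul_rpow (by norm_num) (by positivity), ← Real.rpow_natCast, ← Real.rpow_natCast,
    ← Real.rpow_mul (by norm_num), ← Real.rpow_mul (by norm_num), mul_comm p]

lemma sum_bb (p : ℝ) (h0 : 0 < p) (j : ℕ) :
    ∑ i ∈ range (j + 1), bb (j - i) ^ p ≤ 4 ^ p / (1 - (3 / 4) ^ p) := by
  have h1 : ∑ i ∈ range (j + 1), bb (j - i) ^ p = ∑ u ∈ range (j + 1), bb u ^ p :=
    Finset.sum_flip (fun u => bb u ^ p)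
  rw [h1]
  simp_rw [bb_rpow]
  have hd : (4 : ℝ) ^ p / (1 - (3 / 4) ^ p) = 4 ^ p * (1 - (3 / 4) ^ p)⁻¹ := div_eq_mul_inv _ _
  rw [← Finset.mul_sum, hd]
  apply mul_le_mul_of_nonneg_left _ (by positivity)
  have h2 : (0 : ℝ) ≤ (3 / 4) ^ p := by positivity
  have h3 := rho_lt p h0
  rw [← tsum_geometric_of_lt_one h2 h3]
  exact (summable_geometric_of_lt_one h2 h3).sum_le_tsum _ fun i _ => pow_nonneg h2 i

lemma sum_BV (p : ℝ) (h0 : 0 < p) (j : ℕ) :
    ∑ V ∈ (range (j + 1)).powerset, BV j V ^ p ≤ Ep p := by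
  have h1 : ∀ V ∈ (range (j + 1)).powerset, BV j V ^ p = ∏ i ∈ V, bb (j - i) ^ p := by
    intro V _
    unfold BV
    rw [Real.finsetProd_rpow _ _ fun i _ => (bb_pos _).le]
  rw [Finset.sum_congr rfl h1, ← Finset.prod_one_add]
  calc ∏ i ∈ range (j + 1), (1 + bb (j - i) ^ p) ≤
      ∏ i ∈ range (j + 1), Real.exp (bb (j - i) ^ p) := by
        apply Finset.prod_le_prod
        · intro i _
          have := Real.rpow_nonneg (bb_pos (j - i)).le p
          linarith
        · intro i _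
          have := Real.add_one_le_exp (bb (j - i) ^ p)
          linarith
    _ = Real.exp (∑ i ∈ range (j + 1), bb (j - i) ^ p) := (Real.exp_sum _ _).symm
    _ ≤ _ := Real.exp_le_exp.2 (sum_bb p h0 j)

lemma sum_BV_mem (p : ℝ) (h0 : 0 < p) (j i : ℕ) (hi : i ∈ range (j + 1)) :
    ∑ V ∈ (range (j + 1)).powerset.filter (fun V => i ∈ V), BV j V ^ p ≤
      bb (j - i) ^ p * Ep p := by
  have h1 : ∑ V ∈ (range (j + 1)).powerset.filter (fun V => i ∈ V), BV j V ^ p =
      ∑ W ∈ ((range (j + 1)).erase i).powerset, bb (j - i) ^ p * BV j W ^ p := by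
    apply Finset.sum_nbij' (fun V => V.erase i) (fun W => insert i W)
    · intro V hV
      rw [Finset.mem_filter, Finset.mem_powerset] at hV
      rw [Finset.mem_powerset]
      exact Finset.erase_subset_erase i hV.1
    · intro W hW
      rw [Finset.mem_powerset] at hW
      rw [Finset.mem_filter, Finset.mem_powerset]
      refine ⟨?_, Finset.mem_insert_self _ _⟩
      intro k hk
      rcases Finset.mem_insert.1 hk with h | h
      · rw [h]; exact hi
      · exact Finset.mem_of_mem_erase (hW h)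
    · intro V hV
      rw [Finset.mem_filter] at hV
      exact Finset.insert_erase hV.2
    · intro W hW
      rw [Finset.mem_powerset] at hW
      exact Finset.erase_insert fun h => Finset.notMem_erase i _ (hW h)
    · intro V hV
      rw [Finset.mem_filter] at hV
      unfold BV
      rw [← Finset.mul_prod_erase V (fun i => bb (j - i)) hV.2,
        Real.mul_rpow (bb_pos _).le (Finset.prod_nonneg fun _ _ => (bb_pos _).le)]
  rw [h1, ← Finset.mul_sum]
  apply mul_le_mul_of_nonneg_left _ (Real.rpow_nonneg (bb_pos _).le _)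
  refine le_trans ?_ (sum_BV p h0 j)
  apply Finset.sum_le_sum_of_subset_of_nonneg
  · exact Finset.powerset_mono.2 (Finset.erase_subset _ _)
  · intro V _ _
    exact Real.rpow_nonneg (BV_nonneg _ _) _

/-- `∑_u bb(u)^p (u+1)` -/
def Gp (p : ℝ) : ℝ := ∑' u : ℕ, bb u ^ p * (u + 1)

lemma summable_Gp (p : ℝ) (h0 : 0 < p) : Summable fun u : ℕ => bb u ^ p * ((u : ℝ) + 1) := by
  simp_rw [bb_rpow]
  have h2 : (0 : ℝ) ≤ (3 / 4) ^ p := by positivity
  have h3 := rho_lt p h0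
  have h4 : ‖((3 : ℝ) / 4) ^ p‖ < 1 := by rw [Real.norm_of_nonneg h2]; exact h3
  have s1 := summable_pow_mul_geometric_of_norm_lt_one 1 h4
  have s2 := summable_geometric_of_lt_one h2 h3
  have s3 := (s1.add s2).mul_left (4 ^ p)
  refine s3.congr fun u => ?_
  rw [pow_one]
  ring

lemma sum_le_Gp (p : ℝ) (h0 : 0 < p) (n : ℕ) :
    ∑ u ∈ range n, bb u ^ p * ((u : ℝ) + 1) ≤ Gp p :=
  (summable_Gp p h0).sum_le_tsum _ fun u _ =>
    mul_nonneg (Real.rpow_nonneg (bb_pos _).le _) (by positivity)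

lemma Gp_nonneg (p : ℝ) : 0 ≤ Gp p :=
  tsum_nonneg fun u => mul_nonneg (Real.rpow_nonneg (bb_pos _).le _) (by positivity)

end Pool.Agent.Q168.RL
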