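import Mathlib
import Pool.Agent.Q168.RL.Nrm

/-! The Riesz logarithmic means `R_{2^n}` are uniformly bounded from `H_p` to `L_p`. -/

open MeasureTheory Set Filter Finset
open scoped ENNReal NNReal

noncomputable section

namespace Pool.Agent.Q168.RL

open Pool.Agent.Q168.Walsh (G bit mu r w)

lemma sum_blocks {M : Type*} [AddCommMonoid M] (F : ℕ → M) (n : ℕ) :
    ∑ k ∈ Finset.Icc 1 (2 ^ n), F k =
      ∑ j ∈ range n, ∑ r ∈ range (2 ^ j), F (2 ^ j + r) + F (2 ^ n) := by
  have h1 : ∀ n : ℕ, ∑ k ∈ Finset.Ico 1 (2 ^ n), F k =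
      ∑ j ∈ range n, ∑ r ∈ range (2 ^ j), F (2 ^ j + r) := by
    intro n
    induction n with
    | zero => simp
    | succ n ih =>
      rw [Finset.sum_range_succ, ← ih,
        ← Finset.sum_Ico_consecutive F (Nat.one_le_two_pow : 1 ≤ 2 ^ n)
          (Nat.pow_le_pow_right (by norm_num) (Nat.le_succ n)),
        Finset.sum_Ico_eq_sum_range F (2 ^ n) (2 ^ (n + 1))]
      have : 2 ^ (n + 1) - 2 ^ n = 2 ^ n := by rw [pow_succ]; omega
      rw [this]
  have h2 : Finset.Icc 1 (2 ^ n) = Finset.Ico 1 (2 ^ n + 1) := by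
    ext k
    simp only [Finset.mem_Icc, Finset.mem_Ico]
    omega
  rw [h2, Finset.sum_Ico_succ_top Nat.one_le_two_pow, h1]

variable {f : ℕ → G → ℂ}

lemma block_eq (hf : IsMart f) (j : ℕ) (x : G) :
    ∑ r ∈ range (2 ^ j), S f (2 ^ j + r) x / ((2 ^ j + r : ℕ) : ℂ) =
      ∑ V ∈ (range (j + 1)).powerset, (Kj j V : ℂ) * f (j + 1) (sh x V) := by
  have h1 : ∀ r ∈ range (2 ^ j), S f (2 ^ j + r) x / ((2 ^ j + r : ℕ) : ℂ) =
      ∑ V ∈ (range (j + 1)).powerset, (2 ^ (j + 1) : ℂ)⁻¹ *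
        ((Dk (2 ^ j + r) V : ℂ) / ((2 ^ j + r : ℕ) : ℂ)) * f (j + 1) (sh x V) := by
    intro r hr
    rw [Finset.mem_range] at hr
    rw [S_eq hf (j + 1) (2 ^ j + r) (by rw [pow_succ]; omega) x, Finset.mul_sum,
      Finset.sum_div]
    apply Finset.sum_congr rfl
    intro V _
    ring
  rw [Finset.sum_congr rfl h1, Finset.sum_comm]
  apply Finset.sum_congr rfl
  intro V _
  rw [← Finset.sum_mul, ← Finset.mul_sum]
  unfold Kj
  push_cast
  rfl

lemma S_pow (hf : IsMart f) (n : ℕ) (x : G) : S f (2 ^ n) x = f n x := by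
  rw [S_eq hf n (2 ^ n) le_rfl x, Finset.sum_eq_single ∅]
  · have : Dk (2 ^ n) ∅ = 2 ^ n := by
      unfold Dk chi
      simp
    rw [this, sh_empty]
    push_cast
    have h2 : (2 : ℂ) ^ n ≠ 0 := pow_ne_zero n two_ne_zero
    field_simp
  · intro V hV hne
    obtain ⟨s, hs⟩ := Finset.nonempty_iff_ne_empty.2 hne
    rw [Dk_pow_eq_zero V n s hs (Finset.mem_range.1 ((Finset.mem_powerset.1 hV) hs))]
    simp
  · intro h
    exact absurd (Finset.empty_mem_powerset _) h

/-- `max_{i ≤ j} |f^{(i)}|` -/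
def he (f : ℕ → G → ℂ) (j : ℕ) (x : G) : ℝ≥0∞ := (range (j + 1)).sup fun i => ‖f i x‖ₑ

lemma he_mono (f : ℕ → G → ℂ) (x : G) : Monotone fun j => he f j x := by
  intro i j hij
  apply Finset.sup_mono
  intro k hk
  rw [Finset.mem_range] at hk ⊢
  omega

lemma le_he (f : ℕ → G → ℂ) (j : ℕ) (x : G) : ‖f j x‖ₑ ≤ he f j x :=
  Finset.le_sup (f := fun i => ‖f i x‖ₑ) (Finset.mem_range.2 (Nat.lt_succ_self j))

lemma he_le (f : ℕ → G → ℂ) (j : ℕ) (x : G) : he f j x ≤ ⨆ n, ‖f n x‖ₑ :=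
  Finset.sup_le fun i _ => le_iSup (fun n => ‖f n x‖ₑ) i

lemma he_dep (hf : IsMart f) (j : ℕ) : Dep j (he f j) := by
  intro x y hxy
  unfold he
  apply Finset.sup_congr rfl
  intro i hi
  rw [Finset.mem_range] at hi
  rw [hf.dep i x y fun k hk => hxy k (by omega)]

/-- the part of `he (j+1)` which is not controlled by `he i` -/
def dd (f : ℕ → G → ℂ) (j i : ℕ) (y : G) : ℝ≥0∞ :=
  if 2 * he f i y < he f (j + 1) y then he f (j + 1) y else 0

lemma dd_dep (hf : IsMart f) (j i : ℕ) (hij : i ≤ j) : Dep (j + 1) (dd f j i) := by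
  intro x y hxy
  unfold dd
  rw [he_dep hf (j + 1) x y hxy, he_dep hf i x y fun k hk => hxy k (by omega)]

lemma point (hf : IsMart f) (n j : ℕ) (hj : j < n) (V : Finset ℕ) (hV : V ⊆ range (j + 1))
    (x : G) :
    he f (j + 1) (sh x V) ≤ 2 * he f n x + ∑ i ∈ V, dd f j i (sh x V) := by
  rcases V.eq_empty_or_nonempty with h | h
  · subst h
    rw [sh_empty]
    have h1 : he f (j + 1) x ≤ he f n x := he_mono f x hj
    calc he f (j + 1) x ≤ he f n x := h1
      _ ≤ 2 * he f n x := by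
          rw [two_mul]
          exact le_self_add
      _ ≤ _ := le_self_add
  · set i := V.min' h with hi
    have hiV : i ∈ V := V.min'_mem h
    by_cases hb : 2 * he f i (sh x V) < he f (j + 1) (sh x V)
    · have h1 : he f (j + 1) (sh x V) = dd f j i (sh x V) := by
        unfold dd
        rw [if_pos hb]
      calc he f (j + 1) (sh x V) = dd f j i (sh x V) := h1
        _ ≤ ∑ i ∈ V, dd f j i (sh x V) :=
            Finset.single_le_sum (f := fun i => dd f j i (sh x V)) (fun _ _ => zero_le) hiV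
        _ ≤ _ := le_add_self
    · rw [not_lt] at hb
      have h2 : he f i (sh x V) = he f i x := by
        apply he_dep hf i
        intro k hk
        have : k ∉ V := fun hkV => absurd (V.min'_le k hkV) (not_le.2 hk)
        simp [sh, this]
      have h3 : he f i x ≤ he f n x := by
        apply he_mono f x
        have := Finset.mem_range.1 (hV hiV)
        omega
      calc he f (j + 1) (sh x V) ≤ 2 * he f i (sh x V) := hb
        _ ≤ 2 * he f n x := by rw [h2]; exact mul_le_mul_right h3 _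
        _ ≤ _ := le_self_add

/-- the sum `∑_{k ≤ N} S_k f / k` -/
def LS (f : ℕ → G → ℂ) (N : ℕ) (x : G) : ℂ := ∑ k ∈ Finset.Icc 1 N, S f k x / (k : ℂ)

lemma sum_BV_one (j : ℕ) : ∑ V ∈ (range (j + 1)).powerset, BV j V ≤ Ep 1 := by
  have := sum_BV 1 one_pos j
  simpa using this

lemma main_point (hf : IsMart f) (n : ℕ) (x : G) :
    ‖LS f (2 ^ n) x‖ₑ ≤ ENNReal.ofReal (2 * n * Ep 1 + 1) * he f n x +
      ∑ j ∈ range n, ∑ V ∈ (range (j + 1)).powerset, ∑ i ∈ V,
        ENNReal.ofReal (BV j V) * dd f j i (sh x V) := by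
  unfold LS
  rw [sum_blocks, S_pow hf]
  have hB : ∀ j ∈ range n, ‖∑ r ∈ range (2 ^ j), S f (2 ^ j + r) x / ((2 ^ j + r : ℕ) : ℂ)‖ₑ ≤
      ENNReal.ofReal (2 * Ep 1) * he f n x + ∑ V ∈ (range (j + 1)).powerset, ∑ i ∈ V,
        ENNReal.ofReal (BV j V) * dd f j i (sh x V) := by
    intro j hj
    rw [Finset.mem_range] at hj
    rw [block_eq hf]
    have h1 : ∀ V ∈ (range (j + 1)).powerset, ‖(Kj j V : ℂ) * f (j + 1) (sh x V)‖ₑ ≤
        ENNReal.ofReal (BV j V) * (2 * he f n x) +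
          ∑ i ∈ V, ENNReal.ofReal (BV j V) * dd f j i (sh x V) := by
      intro V hV
      rw [Finset.mem_powerset] at hV
      rw [enorm_mul, ← Finset.mul_sum, ← mul_add]
      apply mul_le_mul'
      · rw [← ofReal_norm, Complex.norm_real, Real.norm_eq_abs]
        exact ENNReal.ofReal_le_ofReal (Kj_le j V hV)
      · exact (le_he f (j + 1) _).trans (point hf n j hj V hV x)
    calc ‖∑ V ∈ (range (j + 1)).powerset, (Kj j V : ℂ) * f (j + 1) (sh x V)‖ₑ ≤
        ∑ V ∈ (range (j + 1)).powerset, ‖(Kj j V : ℂ) * f (j + 1) (sh x V)‖ₑ :=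
          enorm_sum_le _ _
      _ ≤ ∑ V ∈ (range (j + 1)).powerset, (ENNReal.ofReal (BV j V) * (2 * he f n x) +
          ∑ i ∈ V, ENNReal.ofReal (BV j V) * dd f j i (sh x V)) := Finset.sum_le_sum h1
      _ = ENNReal.ofReal (∑ V ∈ (range (j + 1)).powerset, BV j V) * (2 * he f n x) +
          ∑ V ∈ (range (j + 1)).powerset,
            ∑ i ∈ V, ENNReal.ofReal (BV j V) * dd f j i (sh x V) := by
          rw [Finset.sum_add_distrib, ← Finset.sum_mul,
            ENNReal.ofReal_sum_of_nonneg fun V _ => BV_nonneg j V]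
      _ ≤ _ := by
          apply add_le_add _ le_rfl
          rw [ENNReal.ofReal_mul (by norm_num : (0 : ℝ) ≤ 2), ENNReal.ofReal_ofNat,
            mul_comm (2 : ℝ≥0∞) (ENNReal.ofReal (Ep 1)), mul_assoc]
          exact mul_le_mul_left (ENNReal.ofReal_le_ofReal (sum_BV_one j)) _
  have hlast : ‖f n x / ((2 ^ n : ℕ) : ℂ)‖ₑ ≤ he f n x := by
    refine le_trans ?_ (le_he f n x)
    rw [← ofReal_norm, ← ofReal_norm, norm_div]
    apply ENNReal.ofReal_le_ofReal
    apply div_le_self (norm_nonneg _)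
    push_cast
    rw [norm_pow, Complex.norm_ofNat]
    exact one_le_pow₀ (by norm_num)
  calc ‖∑ j ∈ range n, ∑ r ∈ range (2 ^ j), S f (2 ^ j + r) x / ((2 ^ j + r : ℕ) : ℂ) +
        f n x / ((2 ^ n : ℕ) : ℂ)‖ₑ ≤
      ‖∑ j ∈ range n, ∑ r ∈ range (2 ^ j), S f (2 ^ j + r) x / ((2 ^ j + r : ℕ) : ℂ)‖ₑ +
        ‖f n x / ((2 ^ n : ℕ) : ℂ)‖ₑ := enorm_add_le _ _
    _ ≤ ∑ j ∈ range n, (ENNReal.ofReal (2 * Ep 1) * he f n x +
        ∑ V ∈ (range (j + 1)).powerset, ∑ i ∈ V,
          ENNReal.ofReal (BV j V) * dd f j i (sh x V)) + he f n x :=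
        add_le_add ((enorm_sum_le _ _).trans (Finset.sum_le_sum hB)) hlast
    _ = _ := by
        rw [Finset.sum_add_distrib, Finset.sum_const, Finset.card_range, nsmul_eq_mul]
        have h3 : ENNReal.ofReal (2 * n * Ep 1 + 1) =
            (n : ℝ≥0∞) * ENNReal.ofReal (2 * Ep 1) + 1 := by
          rw [ENNReal.ofReal_add (by have := Ep_pos 1; positivity) zero_le_one,
            ENNReal.ofReal_one]
          congr 1
          rw [show (2 * (n : ℝ) * Ep 1) = n * (2 * Ep 1) by ring,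
            ENNReal.ofReal_mul (Nat.cast_nonneg n), ENNReal.ofReal_natCast]
        rw [h3, add_mul, one_mul, mul_assoc]
        ring

/-- interchange of the sums over the blocks -/
lemma flip_sum (n : ℕ) (c : ℕ → ℝ≥0∞) (I : ℕ → ℕ → ℝ≥0∞) :
    ∑ j ∈ range n, ∑ i ∈ range (j + 1), c (j - i) * I j i =
      ∑ u ∈ range n, ∑ i ∈ range (n - u), c u * I (i + u) i := by
  rw [Finset.sum_sigma', Finset.sum_sigma']
  apply Finset.sum_nbij' (fun z => (⟨z.1 - z.2, z.2⟩ : (_ : ℕ) × ℕ))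
    (fun z => (⟨z.2 + z.1, z.2⟩ : (_ : ℕ) × ℕ))
  · rintro ⟨j, i⟩ h
    simp only [Finset.mem_sigma, Finset.mem_range] at h ⊢
    omega
  · rintro ⟨j, i⟩ h
    simp only [Finset.mem_sigma, Finset.mem_range] at h ⊢
    omega
  · rintro ⟨j, i⟩ h
    simp only [Finset.mem_sigma, Finset.mem_range] at h ⊢
    have : i + (j - i) = j := by omega
    simp [this]
  · rintro ⟨j, i⟩ h
    simp only [Finset.mem_sigma, Finset.mem_range] at h ⊢
    have : i + j - i = j := by omega
    simp [this]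
  · rintro ⟨j, i⟩ h
    simp only [Finset.mem_sigma, Finset.mem_range] at h ⊢
    have : i + (j - i) = j := by omega
    simp [this]

lemma int_dd (hf : IsMart f) (p : ℝ) (h0 : 0 < p) (n : ℕ) :
    ∑ j ∈ range n, ∑ i ∈ range (j + 1),
      ENNReal.ofReal (bb (j - i) ^ p * Ep p) * ∫⁻ y, dd f j i y ^ p ∂mu ≤
      ENNReal.ofReal (Ep p * cp p * Gp p) * ∫⁻ y, he f n y ^ p ∂mu := by
  rw [flip_sum n (fun u => ENNReal.ofReal (bb u ^ p * Ep p))
    (fun j i => ∫⁻ y, dd f j i y ^ p ∂mu)]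
  have hm : ∀ j i, i ≤ j → Measurable fun y => dd f j i y ^ p := fun j i hij =>
    (dd_dep hf j i hij).measurable.pow_const p
  have h1 : ∀ u ∈ range n, ∑ i ∈ range (n - u),
      ENNReal.ofReal (bb u ^ p * Ep p) * ∫⁻ y, dd f (i + u) i y ^ p ∂mu ≤
      ENNReal.ofReal (Ep p * cp p * (bb u ^ p * (u + 1))) * ∫⁻ y, he f n y ^ p ∂mu := by
    intro u hu
    rw [Finset.mem_range] at hu
    rw [← Finset.mul_sum, ← lintegral_finsetSum _ fun i _ => hm (i + u) i (by omega)]
    have h2 : ∫⁻ y, ∑ i ∈ range (n - u), dd f (i + u) i y ^ p ∂mu ≤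
        ENNReal.ofReal (cp p) * (u + 1) * ∫⁻ y, he f n y ^ p ∂mu := by
      rw [← lintegral_const_mul _ ((he_dep hf n).measurable.pow_const p)]
      apply lintegral_mono
      intro y
      refine le_trans (le_of_eq ?_) (seq_bound' p h0 (fun j => he f j y) (he_mono f y) u n hu)
      apply Finset.sum_congr rfl
      intro i _
      unfold dd
      have h3 : i + u + 1 = i + (u + 1) := by ring
      rw [h3]
      split_ifs
      · rfl
      · exact ENNReal.zero_rpow_of_pos h0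
    calc ENNReal.ofReal (bb u ^ p * Ep p) *
          ∫⁻ y, ∑ i ∈ range (n - u), dd f (i + u) i y ^ p ∂mu ≤
        ENNReal.ofReal (bb u ^ p * Ep p) *
          (ENNReal.ofReal (cp p) * (u + 1) * ∫⁻ y, he f n y ^ p ∂mu) :=
          mul_le_mul_right h2 _
      _ = _ := by
          have h4 : ENNReal.ofReal (Ep p * cp p * (bb u ^ p * (u + 1))) =
              ENNReal.ofReal (bb u ^ p * Ep p) * (ENNReal.ofReal (cp p) * (u + 1)) := by
            have h5 : (0 : ℝ) ≤ bb u ^ p * Ep p :=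
              mul_nonneg (Real.rpow_nonneg (bb_pos _).le _) (Ep_pos p).le
            have h6 : ((u : ℝ≥0∞) + 1) = ENNReal.ofReal ((u : ℝ) + 1) := by
              rw [ENNReal.ofReal_add (Nat.cast_nonneg u) zero_le_one, ENNReal.ofReal_one,
                ENNReal.ofReal_natCast]
            rw [h6, ← ENNReal.ofReal_mul (cp_pos p h0).le, ← ENNReal.ofReal_mul h5]
            congr 1
            ring
          rw [h4]
          ring
  refine (Finset.sum_le_sum h1).trans ?_
  rw [← Finset.sum_mul]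
  apply mul_le_mul_left
  rw [← ENNReal.ofReal_sum_of_nonneg]
  · apply ENNReal.ofReal_le_ofReal
    rw [← Finset.mul_sum]
    exact mul_le_mul_of_nonneg_left (sum_le_Gp p h0 n)
      (mul_nonneg (Ep_pos p).le (cp_pos p h0).le)
  · intro u _
    exact mul_nonneg (mul_nonneg (Ep_pos p).le (cp_pos p h0).le)
      (mul_nonneg (Real.rpow_nonneg (bb_pos _).le _) (by positivity))

lemma int_LS (hf : IsMart f) (p : ℝ) (h0 : 0 < p) (h1 : p ≤ 1) (n : ℕ) :
    ∫⁻ x, ‖LS f (2 ^ n) x‖ₑ ^ p ∂mu ≤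
      (ENNReal.ofReal ((2 * n * Ep 1 + 1) ^ p) + ENNReal.ofReal (Ep p * cp p * Gp p)) *
        ∫⁻ y, he f n y ^ p ∂mu := by
  have hA : (0 : ℝ) ≤ 2 * n * Ep 1 + 1 := by have := Ep_pos 1; positivity
  have hpt : ∀ x, ‖LS f (2 ^ n) x‖ₑ ^ p ≤ ENNReal.ofReal ((2 * n * Ep 1 + 1) ^ p) * he f n x ^ p +
      ∑ j ∈ range n, ∑ V ∈ (range (j + 1)).powerset, ∑ i ∈ V,
        ENNReal.ofReal (BV j V ^ p) * dd f j i (sh x V) ^ p := by
    intro x
    calc ‖LS f (2 ^ n) x‖ₑ ^ p ≤ (ENNReal.ofReal (2 * n * Ep 1 + 1) * he f n x +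
        ∑ j ∈ range n, ∑ V ∈ (range (j + 1)).powerset, ∑ i ∈ V,
          ENNReal.ofReal (BV j V) * dd f j i (sh x V)) ^ p :=
          ENNReal.rpow_le_rpow (main_point hf n x) h0.le
      _ ≤ (ENNReal.ofReal (2 * n * Ep 1 + 1) * he f n x) ^ p +
        (∑ j ∈ range n, ∑ V ∈ (range (j + 1)).powerset, ∑ i ∈ V,
          ENNReal.ofReal (BV j V) * dd f j i (sh x V)) ^ p :=
          ENNReal.rpow_add_le_add_rpow _ _ h0.le h1
      _ ≤ _ := by
          apply add_le_add
          · rw [ENNReal.mul_rpow_of_nonneg _ _ h0.le, ENNReal.ofReal_rpow_of_nonneg hA h0.le]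
          · refine (sum_rpow_le _ _ p h0 h1).trans (Finset.sum_le_sum fun j _ => ?_)
            refine (sum_rpow_le _ _ p h0 h1).trans (Finset.sum_le_sum fun V _ => ?_)
            refine (sum_rpow_le _ _ p h0 h1).trans (Finset.sum_le_sum fun i _ => ?_)
            rw [ENNReal.mul_rpow_of_nonneg _ _ h0.le,
              ENNReal.ofReal_rpow_of_nonneg (BV_nonneg j V) h0.le]
  have hmd : ∀ j i, i ≤ j → Measurable fun y => dd f j i y ^ p := fun j i hij =>
    (dd_dep hf j i hij).measurable.pow_const p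
  have hle : ∀ j, ∀ V ∈ (range (j + 1)).powerset, ∀ i ∈ V, i ≤ j := by
    intro j V hV i hi
    have := Finset.mem_range.1 ((Finset.mem_powerset.1 hV) hi)
    omega
  have hms : ∀ j, ∀ V ∈ (range (j + 1)).powerset, ∀ i ∈ V,
      Measurable fun x => ENNReal.ofReal (BV j V ^ p) * dd f j i (sh x V) ^ p := by
    intro j V hV i hi
    exact ((hmd j i (hle j V hV i hi)).comp (mp_sh V).measurable).const_mul _
  calc ∫⁻ x, ‖LS f (2 ^ n) x‖ₑ ^ p ∂mu ≤
      ∫⁻ x, (ENNReal.ofReal ((2 * n * Ep 1 + 1) ^ p) * he f n x ^ p +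
        ∑ j ∈ range n, ∑ V ∈ (range (j + 1)).powerset, ∑ i ∈ V,
          ENNReal.ofReal (BV j V ^ p) * dd f j i (sh x V) ^ p) ∂mu := lintegral_mono hpt
    _ = ENNReal.ofReal ((2 * n * Ep 1 + 1) ^ p) * ∫⁻ y, he f n y ^ p ∂mu +
        ∑ j ∈ range n, ∑ V ∈ (range (j + 1)).powerset, ∑ i ∈ V,
          ENNReal.ofReal (BV j V ^ p) * ∫⁻ y, dd f j i y ^ p ∂mu := by
        have hmh : Measurable fun x => he f n x ^ p := (he_dep hf n).measurable.pow_const p
        rw [lintegral_add_left (hmh.const_mul _), lintegral_const_mul _ hmh]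
        congr 1
        rw [lintegral_finsetSum _ fun j _ => Finset.measurable_sum _ fun V hV =>
          Finset.measurable_sum _ fun i hi => hms j V hV i hi]
        apply Finset.sum_congr rfl
        intro j _
        rw [lintegral_finsetSum _ fun V hV =>
          Finset.measurable_sum _ fun i hi => hms j V hV i hi]
        apply Finset.sum_congr rfl
        intro V hV
        rw [lintegral_finsetSum _ fun i hi => hms j V hV i hi]
        apply Finset.sum_congr rfl
        intro i hi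
        have e1 := lintegral_const_mul (μ := mu) (ENNReal.ofReal (BV j V ^ p))
          ((hmd j i (hle j V hV i hi)).comp (mp_sh V).measurable)
        have e2 := (mp_sh V).lintegral_comp (hmd j i (hle j V hV i hi))
        rw [← e2]
        exact e1
    _ ≤ ENNReal.ofReal ((2 * n * Ep 1 + 1) ^ p) * ∫⁻ y, he f n y ^ p ∂mu +
        ∑ j ∈ range n, ∑ i ∈ range (j + 1),
          ENNReal.ofReal (bb (j - i) ^ p * Ep p) * ∫⁻ y, dd f j i y ^ p ∂mu := by
        apply add_le_add le_rfl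
        apply Finset.sum_le_sum
        intro j _
        have hsw : ∑ V ∈ (range (j + 1)).powerset, ∑ i ∈ V,
            ENNReal.ofReal (BV j V ^ p) * ∫⁻ y, dd f j i y ^ p ∂mu =
            ∑ i ∈ range (j + 1), ∑ V ∈ (range (j + 1)).powerset.filter (fun V => i ∈ V),
              ENNReal.ofReal (BV j V ^ p) * ∫⁻ y, dd f j i y ^ p ∂mu := by
          apply Finset.sum_comm'
          intro V i
          simp only [Finset.mem_powerset, Finset.mem_filter]
          constructor
          · rintro ⟨h1, h2⟩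
            exact ⟨⟨h1, h2⟩, h1 h2⟩
          · rintro ⟨⟨h1, h2⟩, _⟩
            exact ⟨h1, h2⟩
        rw [hsw]
        apply Finset.sum_le_sum
        intro i hi
        rw [← Finset.sum_mul]
        apply mul_le_mul_left
        rw [← ENNReal.ofReal_sum_of_nonneg fun V _ => Real.rpow_nonneg (BV_nonneg j V) _]
        exact ENNReal.ofReal_le_ofReal (sum_BV_mem p h0 j i hi)
    _ ≤ _ := by
        rw [add_mul]
        exact add_le_add le_rfl (int_dd hf p h0 n)

/-- `l_n = ∑_{k=1}^n 1/k` -/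
def ln (n : ℕ) : ℝ := ∑ k ∈ Finset.Icc 1 n, 1 / (k : ℝ)

lemma ln_ge (n : ℕ) : 1 + (n : ℝ) / 2 ≤ ln (2 ^ n) := by
  unfold ln
  induction n with
  | zero => simp
  | succ n ih =>
    have h1 : Finset.Icc 1 (2 ^ (n + 1)) = Finset.Ico 1 (2 ^ n + 1) ∪
        Finset.Ico (2 ^ n + 1) (2 ^ (n + 1) + 1) := by
      rw [Finset.Ico_union_Ico_eq_Ico (by have := Nat.one_le_two_pow (n := n); omega)
        (by rw [pow_succ]; omega)]
      ext k
      simp only [Finset.mem_Icc, Finset.mem_Ico]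
      omega
    have h2 : Finset.Icc 1 (2 ^ n) = Finset.Ico 1 (2 ^ n + 1) := by
      ext k
      simp only [Finset.mem_Icc, Finset.mem_Ico]
      omega
    rw [h2] at ih
    rw [h1, Finset.sum_union (Finset.Ico_disjoint_Ico_consecutive _ _ _)]
    have h3 : (1 : ℝ) / 2 ≤ ∑ k ∈ (Finset.Ico (2 ^ n + 1) (2 ^ (n + 1) + 1) : Finset ℕ),
        1 / (k : ℝ) := by
      calc (1 : ℝ) / 2 = ∑ _k ∈ (Finset.Ico (2 ^ n + 1) (2 ^ (n + 1) + 1) : Finset ℕ),
          1 / (2 ^ (n + 1) : ℝ) := by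
            rw [Finset.sum_const, Nat.card_Ico]
            have : 2 ^ (n + 1) + 1 - (2 ^ n + 1) = 2 ^ n := by rw [pow_succ]; omega
            rw [this, nsmul_eq_mul, pow_succ]
            push_cast
            have h5 : (2 : ℝ) ^ n ≠ 0 := by positivity
            field_simp
        _ ≤ _ := by
            apply Finset.sum_le_sum
            intro k hk
            rw [Finset.mem_Ico] at hk
            apply one_div_le_one_div_of_le
            · have : 0 < k := by omega
              exact_mod_cast this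
            · have : k ≤ 2 ^ (n + 1) := by omega
              exact_mod_cast this
    push_cast
    linarith

end Pool.Agent.Q168.RL
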